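import Pool.Agent.Helper58.OL.Def
import Pool.Agent.Helper98.DP.A1a
import Pool.Agent.Helper96.DT.BA

/-!
# OL, part CD: a free line does not lie in the locus `a = b = 0` of codimension two
-/

set_option autoImplicit false
set_option linter.all false

open Polynomial Finset DirectSum

namespace Pool.Agent.Helper86.OL

open Pool.Agent.Helper766_CF Pool.Agent.Helper766_CG Pool.Agent.Helper766_CH
open Pool.Agent.Helper58.CS Pool.Agent.Helper58.OP Pool.Agent.Helper58.SH Pool.Agent.Helper58.BG
open Pool.Agent.Helper58.LC Pool.Agent.Helper58.NS Pool.Agent.Helper58.DP Pool.Agent.Helper58.OL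

open scoped nonZeroDivisors in
/-- The quotient by a prime which contains two coprime elements. -/
theorem dim_add_two {R : Type} [CommRing R] [IsDomain R] [UniqueFactorizationMonoid R]
    (q : Ideal R) [q.IsPrime] {a b : R} (hb0 : b ≠ 0) (hcop : ∀ p, Prime p → p ∣ a → ¬ p ∣ b)
    (ha : a ∈ q) (hb : b ∈ q) : ringKrullDim (R ⧸ q) + 1 + 1 ≤ ringKrullDim R := by
  have hq0 : q ≠ ⊥ := by
    rintro rfl
    exact hb0 (by simpa using hb)
  obtain ⟨p, hpq, hp⟩ := Ideal.IsPrime.exists_mem_prime_of_ne_bot (inferInstance : q.IsPrime) hq0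
  have hle : Ideal.span {p} ≤ q := (Ideal.span_singleton_le_iff_mem q).2 hpq
  have hspan : (Ideal.span {p} : Ideal R).IsPrime :=
    (Ideal.span_singleton_prime hp.ne_zero).2 hp
  obtain ⟨y, hyq, hyp⟩ : ∃ y ∈ q, y ∉ Ideal.span {p} := by
    by_contra hcon
    push Not at hcon
    exact hcop p hp (Ideal.mem_span_singleton.1 (hcon a ha))
      (Ideal.mem_span_singleton.1 (hcon b hb))
  have h1 : ringKrullDim (R ⧸ Ideal.span {p}) + 1 ≤ ringKrullDim R :=
    ringKrullDim_quotient_succ_le_of_nonZeroDivisor (mem_nonZeroDivisors_of_ne_zero hp.ne_zero)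
  have h2 : ringKrullDim (R ⧸ q) + 1 ≤ ringKrullDim (R ⧸ Ideal.span {p}) := by
    refine ringKrullDim_succ_le_of_surjective (Ideal.Quotient.factor hle)
      (Ideal.Quotient.factor_surjective hle) (r := Ideal.Quotient.mk _ y)
      (mem_nonZeroDivisors_of_ne_zero ?_) ?_
    · rwa [Ne, Ideal.Quotient.eq_zero_iff_mem]
    · rw [Ideal.Quotient.factor_mk, Ideal.Quotient.eq_zero_iff_mem]
      exact hyq
  calc ringKrullDim (R ⧸ q) + 1 + 1 ≤ ringKrullDim (R ⧸ Ideal.span {p}) + 1 := by gcongr
    _ ≤ ringKrullDim R := h1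

/-- The derivative of the value of a polynomial. -/
theorem der_eval {k : Type} [Field k] [Algebra ℂ k] (D : Derivation ℂ k k) (t : k) (q : k[X]) :
    D (q.eval t) = (q.sum fun i c => D c * t ^ i) + (derivative q).eval t * D t := by
  induction q using Polynomial.induction_on' with
  | add p q hp hq =>
    rw [eval_add, map_add, hp, hq, derivative_add, eval_add, Polynomial.sum_add_index]
    · ring
    · intro i; simp
    · intro i x y; rw [map_add]; ring
  | monomial i c =>
    rw [eval_monomial, Derivation.leibniz, Derivation.leibniz_pow, derivative_monomial,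
      eval_monomial, Polynomial.sum_monomial_index]
    · simp only [smul_eq_mul, nsmul_eq_mul]
      ring
    · simp

variable {R : Type} [CommRing R] [Algebra ℂ R] {𝒜 : ℕ → Submodule ℂ R} [GradedAlgebra 𝒜]
  {br : R →ₗ[ℂ] R →ₗ[ℂ] R} {k : Type} [Field k] [Algebra ℂ k]

/-- The derivations at a point of a curve at which the evaluation map is a submersion. -/
theorem rank_le [IsDomain R] (hfg : Algebra.FiniteType ℂ R) {n : ℕ}
    (hdim : ringKrullDim R = (n : ℕ)) {F : R →ₐ[ℂ] k[X]} {t : k}
    (hs : Pool.Agent.Helper4.LE.SubAt F t) (p : R →ₐ[ℂ] k) (hp : ∀ r, p r = (F r).eval t)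
    (hdq : ringKrullDim (R ⧸ RingHom.ker p) + 1 + 1 ≤ ringKrullDim R) : False := by
  classical
  have hprime : (RingHom.ker p).IsPrime := RingHom.ker_isPrime p
  -- Noether normalization of the quotient
  obtain ⟨m, g, ginj, gint⟩ := exists_integral_inj_algHom_of_fg ℂ (R ⧸ RingHom.ker p)
  have hm : m + 2 ≤ n := by
    letI := g.toRingHom.toAlgebra
    have hint : Algebra.IsIntegral (MvPolynomial (Fin m) ℂ) (R ⧸ RingHom.ker p) := ⟨gint⟩
    have h1 := Pool.Agent.Helper96.DT.dim_le (MvPolynomial (Fin m) ℂ) (R ⧸ RingHom.ker p) ginj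
    rw [MvPolynomial.ringKrullDim_of_isNoetherianRing, ringKrullDim_eq_zero_of_field] at h1
    simp only [Nat.card_eq_fintype_card, Fintype.card_fin, zero_add] at h1
    have h2 : (m : WithBot ℕ∞) + 1 + 1 ≤ (n : WithBot ℕ∞) := by
      rw [hdim] at hdq
      refine le_trans ?_ hdq
      gcongr
    have h3 : ((m + 1 + 1 : ℕ) : WithBot ℕ∞) ≤ ((n : ℕ) : WithBot ℕ∞) := by
      push_cast
      exact h2
    exact_mod_cast h3
  -- the lift of the point
  let x' : (R ⧸ RingHom.ker p) →ₐ[ℂ] k := Ideal.kerLiftAlg p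
  have hx' : Function.Injective x' := Ideal.kerLiftAlg_injective p
  have hxmk : ∀ r, x' (Ideal.Quotient.mk _ r) = p r := fun r => rfl
  -- the space of the derivations which factor
  let Z : Submodule k (R →ₗ[ℂ] k) :=
    { carrier := {δ | ∃ δ' : (R ⧸ RingHom.ker p) →ₗ[ℂ] k, IsDer x' δ' ∧
        ∀ r, δ r = δ' (Ideal.Quotient.mk _ r)}
      zero_mem' := ⟨0, ⟨by intro a b; simp⟩, by intro r; simp⟩
      add_mem' := by
        rintro δ₁ δ₂ ⟨δ₁', h1, h1'⟩ ⟨δ₂', h2, h2'⟩
        refine ⟨δ₁' + δ₂', ⟨fun a b => ?_⟩, fun r => ?_⟩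
        · rw [LinearMap.add_apply, h1.mul, h2.mul, LinearMap.add_apply, LinearMap.add_apply]
          ring
        · rw [LinearMap.add_apply, h1', h2', LinearMap.add_apply]
      smul_mem' := by
        rintro c δ ⟨δ', h1, h1'⟩
        refine ⟨c • δ', ⟨fun a b => ?_⟩, fun r => ?_⟩
        · rw [LinearMap.smul_apply, h1.mul, LinearMap.smul_apply, LinearMap.smul_apply,
            smul_eq_mul, smul_eq_mul, smul_eq_mul]
          ring
        · rw [LinearMap.smul_apply, h1', LinearMap.smul_apply] }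
  choose r hr using fun j : Fin m =>
    Ideal.Quotient.mk_surjective (I := RingHom.ker p) (g (MvPolynomial.X j))
  let ev : (R →ₗ[ℂ] k) →ₗ[k] (Fin m → k) :=
    { toFun := fun δ j => δ (r j)
      map_add' := fun x y => rfl
      map_smul' := fun c x => rfl }
  have hevinj : Function.Injective (ev.comp Z.subtype) := by
    rw [injective_iff_map_eq_zero]
    rintro ⟨δ, δ', h1, h1'⟩ h0
    apply Subtype.ext
    apply LinearMap.ext
    intro s
    change δ s = 0
    rw [h1']
    refine Pool.Agent.Helper96.DT.der_zero g ginj gint hx' δ' h1 (fun j => ?_) _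
    rw [← hr j, ← h1']
    exact congrFun h0 j
  have hZfin : Module.Finite k Z := Module.Finite.of_injective _ hevinj
  have hZ : Module.finrank k Z ≤ m := by
    have := LinearMap.finrank_le_finrank_of_injective hevinj
    simpa using this
  -- the velocity
  let v : R →ₗ[ℂ] k :=
    { toFun := fun s => (derivative (F s)).eval t
      map_add' := fun a b => by rw [map_add, derivative_add, eval_add]
      map_smul' := fun c a => by
        rw [map_smul, RingHom.id_apply]
        rw [show (c • F a : k[X]) = Polynomial.C (algebraMap ℂ k c) * F a by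
          rw [← smul_eq_C_mul, algebraMap_smul]]
        rw [derivative_C_mul, eval_C_mul, Algebra.smul_def] }
  have hEle : Pool.Agent.Helper98.DP.EE (fun a => p a) ≤ Z ⊔ Submodule.span k {v} := by
    intro δ hδ
    obtain ⟨D, mu, hD⟩ := hs δ (fun a b => by
      have h0 : δ (a * b) = p a * δ b + p b * δ a := hδ a b
      rw [hp, hp] at h0
      exact h0)
    have hdec : δ = (D.toLinearMap ∘ₗ p.toLinearMap : R →ₗ[ℂ] k) + (mu - D t) • v := by
      apply LinearMap.ext
      intro s
      rw [hD, LinearMap.add_apply, LinearMap.smul_apply]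
      change _ = D (p s) + (mu - D t) • (derivative (F s)).eval t
      rw [hp, der_eval, smul_eq_mul]
      ring
    rw [hdec]
    refine Submodule.add_mem_sup ?_ (Submodule.smul_mem _ _ (Submodule.mem_span_singleton_self v))
    refine ⟨D.toLinearMap ∘ₗ x'.toLinearMap, ⟨fun a b => ?_⟩, fun s => rfl⟩
    change D (x' (a * b)) = x' a * D (x' b) + x' b * D (x' a)
    rw [map_mul, Derivation.leibniz, smul_eq_mul, smul_eq_mul]
  haveI : Algebra.FiniteType ℂ R := hfg
  obtain ⟨hfin, hrk⟩ := Pool.Agent.Helper98.DP.rk0 hdim p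
  have h1 := Submodule.finrank_mono hEle
  have h2 := Submodule.finrank_add_le_finrank_add_finrank Z (Submodule.span k {v})
  have h3 : Module.finrank k (Submodule.span k {v}) ≤ 1 := by
    simpa using finrank_span_le_card (R := k) ({v} : Set (R →ₗ[ℂ] k))
  omega

/-- One chart. -/
theorem chart [IsDomain R] [UniqueFactorizationMonoid R] (hfg : Algebra.FiniteType ℂ R) {n : ℕ}
    (hdim : ringKrullDim R = (n : ℕ)) {F : R →ₐ[ℂ] k[X]} {t : k}
    (hs : Pool.Agent.Helper4.LE.SubAt F t) {a b : R} (hb0 : b ≠ 0)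
    (hcop : ∀ p, Prime p → p ∣ a → ¬ p ∣ b) (ha : (F a).eval t = 0) (hb : (F b).eval t = 0) :
    False := by
  let p : R →ₐ[ℂ] k := ((Polynomial.aeval t).restrictScalars ℂ).comp F
  have hp : ∀ r, p r = (F r).eval t := by
    intro r
    change Polynomial.aeval t (F r) = _
    rw [Polynomial.coe_aeval_eq_eval]
  have hprime : (RingHom.ker p).IsPrime := RingHom.ker_isPrime p
  exact rank_le hfg hdim hs p hp (dim_add_two (RingHom.ker p) hb0 hcop
    (by rw [RingHom.mem_ker, hp, ha]) (by rw [RingHom.mem_ker, hp, hb]))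

/-- CD -/
theorem codim [IsAlgClosed k] [IsDomain R] [UniqueFactorizationMonoid R] (C : Core 𝒜 br) {n : ℕ}
    (hdim : ringKrullDim R = (2 * n : ℕ)) {F G : R →ₐ[ℂ] k[X]} (hF : IsCurve 𝒜 k 1 F)
    (hG : IsCurve 𝒜 k 1 G)
    (hrev : ∀ d, ∀ a ∈ 𝒜 d, ∀ i j, i + j = d → (F a).coeff i = (G a).coeff j)
    (hsF : ∀ t, Pool.Agent.Helper4.LE.SubAt F t) (hsG : ∀ t, Pool.Agent.Helper4.LE.SubAt G t)
    {d : ℕ} (hd : 0 < d) {a b : R} (ha : a ∈ 𝒜 d) (hb : b ∈ 𝒜 d) (hb0 : b ≠ 0)
    (hcop : ∀ p, Prime p → p ∣ a → ¬ p ∣ b) {c : k} (hc : F a = Polynomial.C c * F b) : False := by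
  by_cases hroot : ∃ t, (F b).eval t = 0
  · obtain ⟨t, ht⟩ := hroot
    exact chart C.fg hdim (hsF t) hb0 hcop (by rw [hc, eval_mul, ht, mul_zero]) ht
  · have hdeg : (F b).degree = 0 := by
      by_contra h
      obtain ⟨t, ht⟩ := IsAlgClosed.exists_root (F b) h
      exact hroot ⟨t, ht⟩
    have hbd : (F b).coeff d = 0 := by
      apply coeff_eq_zero_of_degree_lt
      rw [hdeg]
      exact_mod_cast hd
    have hGb : (G b).eval 0 = 0 := by
      rw [← coeff_zero_eq_eval_zero, ← hrev d b hb d 0 (by omega), hbd]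
    have hGa : (G a).eval 0 = 0 := by
      rw [← coeff_zero_eq_eval_zero, ← hrev d a ha d 0 (by omega), hc, coeff_C_mul, hbd, mul_zero]
    exact chart C.fg hdim (hsG 0) hb0 hcop hGa hGb

end Pool.Agent.Helper86.OL

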